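import Pool.Agent.Lib.MP_7b6720_al.INV.Ball

set_option autoImplicit false

namespace Pool.Agent.SymDiam.H96

open Equiv Finset

theorem num_bound (k n d N : ℕ) (hn : 12 * (k + 1) + 2 ≤ n) (hd1 : 1 ≤ d) (hd : d ≤ 3 * n ^ 2)
    (hN1 : 1 ≤ N) (hN : N ≤ n ^ k) :
    (1 - 1 / (2 * (d : ℝ) * (N : ℝ) ^ 3)) ^ (n ^ (3 * k + 5)) ≤ (1 / ((n : ℝ) * N)) ^ 2 := by
  have hn0 : (0 : ℝ) < n := by exact_mod_cast (by omega : 0 < n)
  have hd0 : (1 : ℝ) ≤ d := by exact_mod_cast hd1
  have hN0 : (1 : ℝ) ≤ N := by exact_mod_cast hN1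
  have hdR : (d : ℝ) ≤ 3 * n ^ 2 := by exact_mod_cast hd
  have hNR : (N : ℝ) ≤ n ^ k := by exact_mod_cast hN
  have hnR : (12 * (k + 1) + 2 : ℝ) ≤ n := by exact_mod_cast hn
  set x : ℝ := 1 / (2 * (d : ℝ) * (N : ℝ) ^ 3) with hx
  have hden : (1 : ℝ) ≤ 2 * (d : ℝ) * (N : ℝ) ^ 3 := by
    have : (1 : ℝ) ≤ (N : ℝ) ^ 3 := one_le_pow₀ hN0
    nlinarith
  have hx1 : x ≤ 1 := by rw [hx, div_le_one (by linarith)]; exact hden
  have hxl : 1 / (6 * (n : ℝ) ^ (3 * k + 2)) ≤ x := by
    rw [hx]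
    apply one_div_le_one_div_of_le (by linarith)
    calc 2 * (d : ℝ) * (N : ℝ) ^ 3 ≤ 2 * (3 * (n : ℝ) ^ 2) * ((n : ℝ) ^ k) ^ 3 := by gcongr
      _ = 6 * (n : ℝ) ^ (3 * k + 2) := by ring
  have h1 : (1 - x) ^ (n ^ (3 * k + 5)) ≤ Real.exp (-(x * (n : ℝ) ^ (3 * k + 5))) := by
    have h2 : 1 - x ≤ Real.exp (-x) := by
      have := Real.add_one_le_exp (-x); linarith
    calc (1 - x) ^ (n ^ (3 * k + 5)) ≤ (Real.exp (-x)) ^ (n ^ (3 * k + 5)) :=
          pow_le_pow_left₀ (by linarith) h2 _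
      _ = Real.exp (-(x * (n : ℝ) ^ (3 * k + 5))) := by
          rw [← Real.exp_nat_mul]; congr 1; push_cast; ring
  refine h1.trans ?_
  have hlog : Real.log n ≤ n := Real.log_le_self hn0.le
  have hxt : 2 * ((k : ℝ) + 1) * Real.log n ≤ x * (n : ℝ) ^ (3 * k + 5) := by
    calc 2 * ((k : ℝ) + 1) * Real.log n ≤ 2 * ((k : ℝ) + 1) * n := by gcongr
      _ ≤ (n : ℝ) ^ 3 / 6 := by
          have hk0 : (0 : ℝ) ≤ k := Nat.cast_nonneg k
          have : 12 * ((k : ℝ) + 1) ≤ n ^ 2 := by nlinarith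
          nlinarith
      _ = 1 / (6 * (n : ℝ) ^ (3 * k + 2)) * (n : ℝ) ^ (3 * k + 5) := by
          field_simp
          ring
      _ ≤ x * (n : ℝ) ^ (3 * k + 5) := by gcongr
  calc Real.exp (-(x * (n : ℝ) ^ (3 * k + 5)))
      ≤ Real.exp (-(2 * ((k : ℝ) + 1) * Real.log n)) := Real.exp_le_exp.2 (by linarith)
    _ = (1 / (n : ℝ) ^ (k + 1)) ^ 2 := by
        have : (n : ℝ) ^ (k + 1) = Real.exp (((k : ℝ) + 1) * Real.log n) := by
          rw [mul_comm, Real.exp_mul, Real.exp_log hn0]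
          exact_mod_cast (Real.rpow_natCast (n : ℝ) (k + 1)).symm
        rw [this, one_div, ← Real.exp_neg, ← Real.exp_nat_mul]
        congr 1; push_cast; ring
    _ ≤ (1 / ((n : ℝ) * N)) ^ 2 := by
        apply pow_le_pow_left₀ (by positivity)
        apply one_div_le_one_div_of_le (by positivity)
        calc (n : ℝ) * N ≤ n * n ^ k := by gcongr
          _ = n ^ (k + 1) := by ring

theorem inBall_of_list {n : ℕ} {A : Set (Perm (Fin n))} {B : Finset (Perm (Fin n))}
    (hB : ∀ b ∈ B, b ∈ A) (l : List (Perm (Fin n)))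
    (hl : ∀ y ∈ l, y ∈ B ∪ B.image (·⁻¹) ∪ {1}) : InBall A l.length l.prod := by
  induction l with
  | nil => simpa using InBall.one
  | cons a l ih =>
      have h1 := ih fun y hy => hl y (by simp [hy])
      have ha := hl a (by simp)
      rw [List.prod_cons, List.length_cons]
      have h2 : InBall A 1 a := by
        simp only [Finset.mem_union, Finset.mem_image, Finset.mem_singleton] at ha
        rcases ha with (h | ⟨b, hb, rfl⟩) | rfl
        · exact InBall.of_mem (hB a h)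
        · exact (InBall.of_mem (hB b hb)).inv
        · exact InBall.one
      exact (h2.mul h1).mono (by omega)

/-- MIX with explicit constants. -/
theorem mixQ (hG : GensS) (hW : WalkS) (hT : TransS) (k n : ℕ) (hn : 12 * (k + 1) + 2 ≤ n)
    (A : Set (Perm (Fin n))) (hA : alternatingGroup (Fin n) ≤ Subgroup.closure A) :
    ∃ W : Perm (Fin n) → ℝ, Mixing n k W ∧ ∀ h, W h ≠ 0 → InBall A (n ^ (3 * k + 5)) h := by
  obtain ⟨B, hB1, hB2, hB3⟩ := hG n A
  set S : Finset (Perm (Fin n)) := B ∪ B.image (·⁻¹) ∪ {1} with hS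
  have hSc : S.card ≤ 3 * n ^ 2 := by
    have h1 : S.card ≤ (B ∪ B.image (·⁻¹)).card + 1 := by
      rw [hS]; exact (Finset.card_union_le (B ∪ B.image (·⁻¹)) {1}).trans (by simp)
    have h2 : (B ∪ B.image (·⁻¹)).card ≤ B.card + B.card :=
      (Finset.card_union_le _ _).trans (Nat.add_le_add_left Finset.card_image_le _)
    have h3 : 1 ≤ n ^ 2 := Nat.one_le_pow _ _ (by omega)
    omega
  have hS1 : 1 ≤ S.card := Finset.card_pos.2 ⟨1, by simp [hS]⟩
  have hSinv : ∀ s ∈ S, s⁻¹ ∈ S := by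
    intro s hs
    simp only [hS, Finset.mem_union, Finset.mem_image, Finset.mem_singleton] at hs ⊢
    rcases hs with (h | ⟨b, hb, rfl⟩) | rfl
    · exact Or.inl (Or.inr ⟨s, h, rfl⟩)
    · exact Or.inl (Or.inl (by simpa using hb))
    · exact Or.inr (by simp)
  have hcl : Subgroup.closure A ≤ Subgroup.closure (S : Set (Perm (Fin n))) := by
    rw [← hB2]
    apply Subgroup.closure_mono
    intro b hb
    simp only [hS, Finset.coe_union, Set.mem_union]
    exact Or.inl (Or.inl hb)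
  obtain ⟨W, hW0, hW1, hW2, hW3⟩ := hW (Perm (Fin n)) S hS1 hSinv (n ^ (3 * k + 5))
  have key : ∀ j, j ≤ k → ∀ e e' : Fin j ↪ Fin n,
      |wt W e e' - 1 / (n.descFactorial j : ℝ)| ≤ 1 / ((n : ℝ) * n.descFactorial j) := by
    intro j hj e e'
    have htr : ∀ v w : Fin j ↪ Fin n, ∃ g ∈ Subgroup.closure (S : Set (Perm (Fin n))),
        g • v = w := by
      intro v w
      obtain ⟨g, hg, hm⟩ := hT n j (by omega) A hA v w
      exact ⟨g, hcl hg, by ext i; exact congrArg Fin.val (hm i)⟩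
    have h := hW3 (Fin j ↪ Fin n) htr e e'
    have hcard : Fintype.card (Fin j ↪ Fin n) = n.descFactorial j := by
      rw [Fintype.card_embedding_eq, Fintype.card_fin, Fintype.card_fin]
    rw [hcard] at h
    have hsum : (∑ g, if g • e = e' then W g else 0) = wt W e e' := by
      unfold wt
      refine Finset.sum_congr rfl fun g _ => ?_
      have : (g • e = e') ↔ Maps e e' g := by
        constructor
        · intro hh i; exact DFunLike.congr_fun hh i
        · intro hh; ext i; exact congrArg Fin.val (hh i)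
      simp only [this]
    rw [hsum] at h
    have hN1 : 1 ≤ n.descFactorial j := Nat.descFactorial_pos.2 (by omega)
    have hNk : n.descFactorial j ≤ n ^ k :=
      (Nat.descFactorial_le_pow n j).trans (Nat.pow_le_pow_right (by omega) hj)
    have h2 := h.trans (num_bound k n S.card (n.descFactorial j) hn hS1 hSc hN1 hNk)
    have hpos : (0 : ℝ) ≤ 1 / ((n : ℝ) * n.descFactorial j) := by positivity
    exact abs_le_of_sq_le_sq h2 hpos
  have hn0 : (0 : ℝ) < n := by exact_mod_cast (by omega : 0 < n)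
  refine ⟨W, ⟨hW0, hW1, fun j hj e e' => ?_, fun j hj e e' => ?_⟩, fun h hh => ?_⟩
  · have h1 := (abs_le.1 (key j hj e e')).2
    have hN : (0 : ℝ) < (n.descFactorial j : ℝ) := by
      exact_mod_cast Nat.descFactorial_pos.2 (by omega : j ≤ n)
    have : (1 + 1 / (n : ℝ)) / (n.descFactorial j : ℝ) =
        1 / (n.descFactorial j : ℝ) + 1 / ((n : ℝ) * n.descFactorial j) := by
      field_simp
    rw [this]; linarith
  · have h1 := (abs_le.1 (key j hj e e')).1
    have hN : (0 : ℝ) < (n.descFactorial j : ℝ) := by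
      exact_mod_cast Nat.descFactorial_pos.2 (by omega : j ≤ n)
    have : (1 - 1 / (n : ℝ)) / (n.descFactorial j : ℝ) =
        1 / (n.descFactorial j : ℝ) - 1 / ((n : ℝ) * n.descFactorial j) := by
      field_simp
    rw [this]; linarith
  · obtain ⟨l, hl1, hl2, rfl⟩ := hW2 h hh
    exact (inBall_of_list hB1 l hl2).mono hl1

theorem mix (hG : GensS) (hW : WalkS) (hT : TransS) : MixS := fun k =>
  ⟨3 * k + 5, 12 * (k + 1) + 2, fun n hn A hA => mixQ hG hW hT k n hn A hA⟩

end Pool.Agent.SymDiam.H96
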