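import Pool.Agent.Lib.MP_7b6720_al.INV.H96.Quant
import Pool.Agent.Lib.MP_7b6720_al.INV.H96.Mix
import Pool.Agent.Lib.MP_7b6720_al.INV.H28.Gap
import Pool.Agent.Lib.MP_7b6720_al.INV.H28.Poin
import Pool.Agent.Lib.MP_7b6720_al.INV.H28.Walk
import Pool.Agent.Lib.MP_7b6720_al.INV.H44.Contr
import Pool.Agent.Lib.MP_7b6720_al.INV.H44.Even
import Pool.Agent.Lib.MP_7b6720_al.INV.H44.Fin
import Pool.Agent.Lib.MP_7b6720_al.INV.H44.Supp
import Pool.Agent.Lib.MP_7b6720_al.INV.H44.Three
import Pool.Agent.Lib.MP_7b6720_al.INV.H52.Iter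
import Pool.Agent.Lib.MP_7b6720_al.INV.H59.Count
import Pool.Agent.Lib.MP_7b6720_al.INV.H70.Dih
import Pool.Agent.Lib.MP_7b6720_al.INV.H98.Gens
import Pool.Agent.Lib.MP_7b6720_al.INV.H98.Trans

set_option autoImplicit false

/-!
# The main theorem with explicit constants
-/

namespace Pool.Agent.SymDiam.H96

open Equiv Finset

theorem mainQ (n m L : ℕ) (A : Set (Perm (Fin n)))
    (hA : alternatingGroup (Fin n) ≤ Subgroup.closure A) (t : Perm (Fin n))
    (htb : InBall A L t) (ht1 : t ≠ 1) (htt : t * t = 1)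
    (hfix : n ≤ m * (univ.filter fun x => t x = x).card) (hn : 400000 * m ^ 2 ≤ n) :
    ∀ g ∈ Subgroup.closure A, InBall A (L * n ^ (298 * m)) g := by
  intro g hg
  have hn2 : 2 ≤ n := by
    by_contra hlt
    apply ht1
    have : n = 0 ∨ n = 1 := by omega
    ext x
    rcases this with h | h
    · subst h; exact x.elim0
    · subst h; exact congrArg _ (Subsingleton.elim _ _)
  have hm : 1 ≤ m := by
    rcases Nat.eq_zero_or_pos m with h | h
    · subst h; omega
    · exact h
  have hL : 1 ≤ L := by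
    rcases Nat.eq_zero_or_pos L with h | h
    · subst h
      obtain ⟨l, h1, -, h3⟩ := htb
      have : l = [] := List.eq_nil_of_length_eq_zero (by omega)
      subst this
      exact absurd h3.symm (by simpa using ht1)
    · exact h
  have hmm : m ≤ m ^ 2 := by nlinarith
  have hm1 : 1 ≤ m ^ 2 := by nlinarith
  obtain ⟨W, hW, hWb⟩ := mixQ H98.gens (H28.walk (H28.gap H28.poin)) H98.trans (90 * m) n
    (by omega) A hA
  have hW3 : Mixing n 3 W := hW.mono (by omega)
  set R : ℕ := n ^ (3 * (90 * m) + 5) with hR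
  set M : ℕ := (20 * m).factorial with hM
  -- a short nonidentity word of small support
  have hz : ∃ z : Perm (Fin n), z ≠ 1 ∧ 100 * z.support.card ≤ n ∧
      InBall A (M * (2 * L + 2 * R) + L) z := by
    by_cases hsup : n < 100 * t.support.card
    · obtain ⟨h, hh0, hh1, hh2⟩ := smallQ H59.count (H70.dih H70.evw) n m hm hn W hW t htt hfix
        hsup
      refine ⟨(t * cj t h) ^ M, hh1, hh2, ?_⟩
      refine ((htb.mul (htb.cj (hWb h hh0))).pow M).mono ?_
      have : L + (L + 2 * R) = 2 * L + 2 * R := by ring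
      rw [this]
      omega
    · exact ⟨t, ht1, by omega, htb.mono (by omega)⟩
  obtain ⟨z, hz1, hz2, hzb⟩ := hz
  obtain ⟨z', hz'1, hz'2, hz'b⟩ := H52.iter (H44.con H44.supp) n (by omega) A R W hW3 hWb z _
    hz1 hzb hz2
  obtain ⟨h, hh0, hh3⟩ := H44.three H44.supp n (by omega) W hW3 z' hz'1 hz'2
  have h3b := hz'b.cm (hWb h hh0)
  have htrans : ∀ e e' : Fin 3 ↪ Fin n, ∃ h, InBall A R h ∧ Maps e e' h := by
    intro e e'
    have hpos : 0 < wt W e e' := by
      refine lt_of_lt_of_le ?_ (hW3.lower 3 le_rfl e e')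
      have h1 : (1 : ℝ) / n < 1 := by
        rw [div_lt_one (by positivity)]
        exact_mod_cast (by omega : 1 < n)
      have h2 : (0 : ℝ) < (n.descFactorial 3 : ℝ) := by
        exact_mod_cast Nat.descFactorial_pos.2 (by omega)
      exact div_pos (by linarith) h2
    obtain ⟨h, h1, h2, -⟩ := exists_le_of_avg hW3 e e' hpos (fun _ => 0) 0 (by simp)
    exact ⟨h, hWb h h1, h2⟩
  refine (H44.fin H44.even n A _ R _ hA hh3 h3b htrans g hg).mono ?_
  -- arithmetic
  have hsz : z.support.card ≤ n := by omega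
  have hp : ∀ i j : ℕ, i ≤ j → n ^ i ≤ n ^ j := fun i j hij => Nat.pow_le_pow_right (by omega) hij
  have hMb : M ≤ n ^ (20 * m) :=
    (Nat.factorial_le_pow (20 * m)).trans (Nat.pow_le_pow_left (by omega) _)
  set P : ℕ := L * n ^ (290 * m + 5) with hP
  have hRP : R ≤ P := by
    calc R ≤ n ^ (290 * m + 5) := hp _ _ (by omega)
      _ ≤ P := Nat.le_mul_of_pos_left _ hL
  have hLP : L ≤ P := Nat.le_mul_of_pos_right _ (by positivity)
  have hR1 : 1 ≤ R := Nat.one_le_pow _ _ (by omega)
  have e1 : M * (2 * L + 2 * R) ≤ 4 * P := by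
    calc M * (2 * L + 2 * R) ≤ n ^ (20 * m) * (4 * (L * R)) := by
          apply Nat.mul_le_mul hMb
          nlinarith
      _ = 4 * (L * (n ^ (20 * m) * n ^ (3 * (90 * m) + 5))) := by rw [hR]; ring
      _ = 4 * P := by
          rw [hP, ← pow_add]
          congr 3
          ring
  have e2 : z.support.card * (M * (2 * L + 2 * R) + L + 2 * R) ≤ 7 * (n * P) := by
    calc z.support.card * (M * (2 * L + 2 * R) + L + 2 * R) ≤ n * (7 * P) :=
          Nat.mul_le_mul hsz (by omega)
      _ = 7 * (n * P) := by ring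
  have hPn : P ≤ n * P := Nat.le_mul_of_pos_left _ (by omega)
  have hPnn : n * P ≤ n * (n * P) := Nat.le_mul_of_pos_left _ (by omega)
  calc n * (4 * (z.support.card * (M * (2 * L + 2 * R) + L + 2 * R)) + 4 * R + 2 * R) + 1
      ≤ n * (34 * (n * P)) + n * (n * P) := by
        have h1 : n * (4 * (z.support.card * (M * (2 * L + 2 * R) + L + 2 * R)) + 4 * R + 2 * R) ≤
          n * (34 * (n * P)) := Nat.mul_le_mul_left _ (by omega)
        omega
    _ = 35 * (n * (n * P)) := by ring
    _ ≤ n * (n * (n * P)) := Nat.mul_le_mul_right _ (by omega)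
    _ = L * n ^ (290 * m + 8) := by rw [hP]; ring
    _ ≤ L * n ^ (298 * m) := Nat.mul_le_mul_left _ (hp _ _ (by omega))

end Pool.Agent.SymDiam.H96
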