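import Pool.Agent.Lib.MP_7b6720_al.INV.Ball
import Pool.Agent.Lib.MP_7b6720_al.INV.H52.Small
import Pool.Agent.Lib.MP_7b6720_al.INV.H59.Force

set_option autoImplicit false

/-!
# The quantitative version
-/

namespace Pool.Agent.SymDiam.H96

open Equiv Finset

/-- a tuple condition which forces a cycle of length `q` of `g * cj g h` -/
theorem forceQ (n q : ℕ) (g : Perm (Fin n)) (hg : g * g = 1) (hq : 2 ≤ q)
    (hs : 2 * q ≤ g.support.card) :
    ∃ (e e' : Fin (2 * q) ↪ Fin n) (x : Fin n), ∀ h, Maps e e' h →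
      ((g * cj g h) ^ q) x = x ∧ (g * cj g h) x ≠ x := by
  have hgg : ∀ y, g (g y) = y := fun y => by
    rw [← Perm.mul_apply, hg, Perm.one_apply]
  obtain ⟨p, hp1, hp2⟩ := H59.exists_pairs n (q - 1) g hg (by omega)
  have hmod : ∀ j, (j + 1) % q < q := fun j => Nat.mod_lt _ (by omega)
  have hmodinj : ∀ i < q, ∀ j < q, (i + 1) % q = (j + 1) % q → i = j := by
    intro i hi j hj h
    rcases Nat.lt_or_ge (i + 1) q with h1 | h1
    · rcases Nat.lt_or_ge (j + 1) q with h2 | h2
      · rw [Nat.mod_eq_of_lt h1, Nat.mod_eq_of_lt h2] at h; omega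
      · have : j + 1 = q := by omega
        rw [Nat.mod_eq_of_lt h1, this, Nat.mod_self] at h; omega
    · have h1' : i + 1 = q := by omega
      rcases Nat.lt_or_ge (j + 1) q with h2 | h2
      · rw [Nat.mod_eq_of_lt h2, h1', Nat.mod_self] at h; omega
      · omega
  let e : Fin (2 * q) ↪ Fin n := ⟨fun j => if (j : ℕ) < q then p (((j : ℕ) + 1) % q)
    else g (p (j - q)), by
    intro i j h
    simp only at h
    have hi := i.2
    have hj := j.2
    have hmi := hmod i
    have hmj := hmod j
    apply Fin.ext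
    split_ifs at h with h1 h2 h2
    · exact hmodinj _ h1 _ h2 (hp1 _ (by omega) _ (by omega) h)
    · exact absurd h (hp2 _ (by omega) _ (by omega))
    · exact absurd h.symm (hp2 _ (by omega) _ (by omega))
    · have := hp1 _ (by omega) _ (by omega) (g.injective h)
      omega⟩
  let e' : Fin (2 * q) ↪ Fin n := ⟨fun j => if (j : ℕ) < q then p j else g (p (j - q)), by
    intro i j h
    simp only at h
    have hi := i.2
    have hj := j.2
    apply Fin.ext
    split_ifs at h with h1 h2 h2
    · exact hp1 _ (by omega) _ (by omega) h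
    · exact absurd h (hp2 _ (by omega) _ (by omega))
    · exact absurd h.symm (hp2 _ (by omega) _ (by omega))
    · have := hp1 _ (by omega) _ (by omega) (g.injective h)
      omega⟩
  refine ⟨e, e', p 0, fun h hh => ?_⟩
  have h1 : ∀ i < q, h (p ((i + 1) % q)) = p i := by
    intro i hi
    have h2 : h (if i < q then p ((i + 1) % q) else g (p (i - q))) =
      (if i < q then p i else g (p (i - q))) := hh ⟨i, by omega⟩
    rwa [if_pos hi, if_pos hi] at h2
  have h2 : ∀ i < q, h (g (p i)) = g (p i) := by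
    intro i hi
    have h2 : h (if q + i < q then p ((q + i + 1) % q) else g (p (q + i - q))) =
      (if q + i < q then p (q + i) else g (p (q + i - q))) := hh ⟨q + i, by omega⟩
    rwa [if_neg (by omega), if_neg (by omega), Nat.add_sub_cancel_left] at h2
  have h3 : ∀ i < q, (g * cj g h) (p ((i + 1) % q)) = p i := by
    intro i hi
    have h4 : cj g h (p ((i + 1) % q)) = g (p i) := by
      change h⁻¹ (g (h (p ((i + 1) % q)))) = g (p i)
      rw [h1 i hi]
      conv_lhs => rw [← h2 i hi]
      exact h.symm_apply_apply _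
    rw [Perm.mul_apply, h4, hgg]
  have h5 : ∀ j ≤ q, ((g * cj g h) ^ j) (p (j % q)) = p 0 := by
    intro j
    induction j with
    | zero => intro _; simp
    | succ j ih =>
      intro hj
      rw [pow_succ, Perm.mul_apply, h3 j (by omega)]
      have := ih (by omega)
      rwa [Nat.mod_eq_of_lt (by omega : j < q)] at this
  refine ⟨?_, ?_⟩
  · have := h5 q le_rfl
    rwa [Nat.mod_self] at this
  · have := h3 (q - 1) (by omega)
    rw [Nat.sub_add_cancel (by omega), Nat.mod_self] at this
    rw [this]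
    intro h6
    have := hp1 _ (by omega) _ (by omega) h6
    omega

theorem fixed_of_coprime {n : ℕ} (u : Perm (Fin n)) (x : Fin n) (a b : ℕ)
    (hab : Nat.gcd a b = 1) (ha : (u ^ a) x = x) (hb : (u ^ b) x = x) : u x = x := by
  have hp1 : Function.IsPeriodicPt u a x := by
    have : (u : Fin n → Fin n)^[a] x = (u ^ a) x := by rw [Perm.iterate_eq_pow]
    exact this.trans ha
  have hp2 : Function.IsPeriodicPt u b x := by
    have : (u : Fin n → Fin n)^[b] x = (u ^ b) x := by rw [Perm.iterate_eq_pow]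
    exact this.trans hb
  have h := hp1.gcd hp2
  rw [hab] at h
  simpa [Function.IsPeriodicPt, Function.IsFixedPt] using h

theorem pow_bound (m : ℕ) (hm : 1 ≤ m) :
    (1 - 1 / (m : ℝ)) ^ (2 * (5 * m) - 1) < 1 / 3200 := by
  have hm0 : (1 : ℝ) ≤ m := by exact_mod_cast hm
  have h1 : 1 - 1 / (m : ℝ) ≤ Real.exp (-(1 / (m : ℝ))) := by
    have := Real.add_one_le_exp (-(1 / (m : ℝ))); linarith
  have h0 : 0 ≤ 1 - 1 / (m : ℝ) := by
    have : 1 / (m : ℝ) ≤ 1 := by rw [div_le_one (by linarith)]; exact hm0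
    linarith
  have h2 : (1 - 1 / (m : ℝ)) ^ (2 * (5 * m) - 1) ≤ Real.exp (-9) := by
    calc (1 - 1 / (m : ℝ)) ^ (2 * (5 * m) - 1)
        ≤ (Real.exp (-(1 / (m : ℝ)))) ^ (2 * (5 * m) - 1) := pow_le_pow_left₀ h0 h1 _
      _ = Real.exp (((2 * (5 * m) - 1 : ℕ) : ℝ) * (-(1 / (m : ℝ)))) := by
          rw [← Real.exp_nat_mul]
      _ ≤ Real.exp (-9) := by
          apply Real.exp_le_exp.2
          have h3 : ((2 * (5 * m) - 1 : ℕ) : ℝ) = 10 * m - 1 := by
            rw [Nat.cast_sub (by omega)]; push_cast; ring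
          rw [h3]
          have h4 : (10 * (m : ℝ) - 1) * (1 / m) = 10 - 1 / m := by field_simp
          have h5 : 1 / (m : ℝ) ≤ 1 := by rw [div_le_one (by linarith)]; exact hm0
          nlinarith
  refine h2.trans_lt ?_
  rw [Real.exp_neg, ← one_div]
  apply one_div_lt_one_div_of_lt (by norm_num)
  have h6 : (2.7 : ℝ) ^ 9 < (Real.exp 1) ^ 9 := by
    apply pow_lt_pow_left₀ _ (by norm_num) (by norm_num)
    have := Real.exp_one_gt_d9; linarith
  have h7 : (Real.exp 1) ^ 9 = Real.exp 9 := by
    rw [← Real.exp_nat_mul]; norm_num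
  rw [← h7]
  refine lt_trans ?_ h6
  norm_num

theorem smallQ (hC : CountS) (hD : DihS) (n m : ℕ) (hm : 1 ≤ m) (hn : 400000 * m ^ 2 ≤ n)
    (W : Perm (Fin n) → ℝ) (hW : Mixing n (90 * m) W) (g : Perm (Fin n)) (hg : g * g = 1)
    (hfix : n ≤ m * (univ.filter fun x => g x = x).card) (hsupp : n < 100 * g.support.card) :
    ∃ h, W h ≠ 0 ∧ (g * cj g h) ^ (20 * m).factorial ≠ 1 ∧
      100 * ((g * cj g h) ^ (20 * m).factorial).support.card ≤ n := by
  obtain ⟨q, hqp, hq1, hq2⟩ := Nat.exists_prime_lt_and_le_two_mul (20 * m) (by omega)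
  have hmm : m ≤ m ^ 2 := by nlinarith
  obtain ⟨e, e', x0, hx0⟩ := forceQ n q g hg hqp.two_le (by omega)
  set δ : ℝ := 1 - 1 / (m : ℝ) with hδ
  have hm0 : (1 : ℝ) ≤ m := by exact_mod_cast hm
  have hδ0 : 0 ≤ δ := by
    have : 1 / (m : ℝ) ≤ 1 := by rw [div_le_one (by linarith)]; exact hm0
    rw [hδ]; linarith
  -- support size
  have hsd : (g.support.card : ℝ) ≤ δ * n := by
    have h1 : (univ.filter fun x => g x = x).card + g.support.card = n := by
      have h2 : g.support = univ.filter fun x => ¬ (g x = x) := by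
        ext x; simp [Perm.mem_support]
      rw [h2, Finset.card_filter_add_card_filter_not]
      simp
    have h3 : ((univ.filter fun x => g x = x).card : ℝ) + (g.support.card : ℝ) = n := by
      exact_mod_cast h1
    have h4 : (n : ℝ) ≤ m * ((univ.filter fun x => g x = x).card : ℝ) := by
      exact_mod_cast hfix
    have h5 : (1 / (m : ℝ)) * n ≤ ((univ.filter fun x => g x = x).card : ℝ) := by
      rw [one_div, inv_mul_le_iff₀ (by linarith)]; exact h4
    rw [hδ]; linarith
  -- existence of `h`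
  have hex : ∃ h, W h ≠ 0 ∧ Maps e e' h ∧
      ((univ.filter fun x => Dist g (cj g h) (2 * (5 * m)) x).card : ℝ) ≤ n / 200 := by
    by_contra hcon
    push Not at hcon
    have hcount := hC n (2 * q) (5 * m) W (by omega) (hW.mono (by omega)) g hg e e'
    have hlow : (n : ℝ) / 200 * wt W e e' ≤ (∑ h, if Maps e e' h then
        W h * ((univ.filter fun x => Dist g (cj g h) (2 * (5 * m)) x).card : ℝ) else 0) := by
      unfold wt
      rw [Finset.mul_sum]
      apply Finset.sum_le_sum
      intro h _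
      split_ifs with hm
      · by_cases hw0 : W h = 0
        · rw [hw0]; simp
        · have h1 := hcon h hw0 hm
          have h2 := hW.nonneg h
          nlinarith
      · simp
    refine H52.final_ineq n (2 * q) (5 * m) g.support.card δ (wt W e e') hδ0 (by omega)
      (pow_bound m hm) hsd ?_ (hW.lower (2 * q) (by omega) e e') (le_trans hlow hcount)
    have e1 : 800 * (5 * m) * (2 * q) ≤ 800 * (5 * m) * (80 * m) :=
      Nat.mul_le_mul_left _ (by omega)
    have e2 : 4 * (5 * m) * (2 * q + 2 * (5 * m)) ≤ 4 * (5 * m) * (90 * m) :=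
      Nat.mul_le_mul_left _ (by omega)
    nlinarith
  obtain ⟨h, hWh, hmaps, hcard⟩ := hex
  refine ⟨h, hWh, ?_, ?_⟩
  · intro hone
    obtain ⟨hc1, hc2⟩ := hx0 h hmaps
    apply hc2
    have hcop : Nat.gcd q (20 * m).factorial = 1 := by
      have : ¬ q ∣ (20 * m).factorial := by
        rw [hqp.dvd_factorial]; omega
      exact (Nat.Prime.coprime_iff_not_dvd hqp).2 this
    generalize g * cj g h = u at hone hc1
    exact fixed_of_coprime u x0 q _ hcop hc1 (by rw [hone]; rfl)
  · have hb := H52.support_bound hD n g (cj g h) hg (H52.cj_sq g h hg) (5 * m) (by omega)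
    rw [show 4 * (5 * m) = 20 * m by ring] at hb
    have h1 : (((g * cj g h) ^ (20 * m).factorial).support.card : ℝ) ≤
        2 * ((univ.filter fun x => Dist g (cj g h) (2 * (5 * m)) x).card : ℝ) := by
      exact_mod_cast hb
    have h2 : (100 : ℝ) * (((g * cj g h) ^ (20 * m).factorial).support.card : ℝ) ≤ n := by
      linarith
    exact_mod_cast h2

end Pool.Agent.SymDiam.H96
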